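import Mathlib

/-!
# Completely metrizable spaces are strongly Telgarsky pseudocomplete
-/

set_option autoImplicit false

open Set Topology Filter TopologicalSpace

namespace Pool.Agent.Results.MP_e752eb_gt.MetrizableCase

/-- Strongly Telgarsky pseudocomplete spaces: there is a base of nonempty open sets such that every
nested sequence of its members has nonempty intersection. -/
def StronglyTelgarskyPseudocomplete (X : Type*) [TopologicalSpace X] : Prop :=
  ∃ ℬ : Set (Set X), IsTopologicalBasis ℬ ∧ (∀ B ∈ ℬ, B.Nonempty) ∧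
    ∀ B : ℕ → Set X, (∀ n, B n ∈ ℬ) → (∀ n, closure (B (n + 1)) ⊆ interior (B n)) →
      (⋂ n, B n).Nonempty

theorem exists_maximal_separated {X : Type*} [MetricSpace X] (ε : ℝ) (hε : 0 < ε) :
    ∃ S : Set X, (∀ s ∈ S, ∀ t ∈ S, s ≠ t → ε ≤ dist s t) ∧ ∀ x, ∃ s ∈ S, dist x s < ε := by
  obtain ⟨D, -, hD⟩ := zorn_subset_nonempty {D : Set X | ∀ y ∈ D, ∀ z ∈ D, y ≠ z → ε ≤ dist y z}
    (by
      intro c hc hchain _
      refine ⟨⋃₀ c, ?_, fun s hs => subset_sUnion_of_mem hs⟩
      rintro y ⟨D, hD, hy⟩ z ⟨D', hD', hz⟩ hyz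
      rcases hchain.total hD hD' with h3 | h3
      · exact hc hD' y (h3 hy) z hz hyz
      · exact hc hD y hy z (h3 hz) hyz) ∅ (by
        intro y hy
        exact absurd hy (notMem_empty y))
  refine ⟨D, hD.prop, fun x => ?_⟩
  by_contra hx
  push Not at hx
  have hmem : x ∉ D := fun hxD => by
    have := hx x hxD
    rw [dist_self] at this
    linarith
  have hins : insert x D ∈ {D : Set X | ∀ y ∈ D, ∀ z ∈ D, y ≠ z → ε ≤ dist y z} := by
    rintro y (rfl | hy) z (rfl | hz) hyz
    · exact absurd rfl hyz
    · exact hx z hz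
    · rw [dist_comm]
      exact hx y hy
    · exact hD.prop y hy z hz hyz
  exact hmem (hD.le_of_ge hins (subset_insert x D) (mem_insert x D))

/-- Every completely metrizable space is strongly Telgarsky pseudocomplete. -/
theorem result (X : Type*) [TopologicalSpace X] [IsCompletelyMetrizableSpace X] :
    StronglyTelgarskyPseudocomplete X := by
  let _ := upgradeIsCompletelyMetrizable X
  have hε : ∀ n : ℕ, (0 : ℝ) < 1 / (n + 1) := fun n => by positivity
  choose S hS1 hS2 using fun n : ℕ => exists_maximal_separated (X := X) (1 / (n + 1)) (hε n)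
  let ℬ : Set (Set X) := {B | ∃ n : ℕ, ∃ s ∈ S n, B = Metric.ball s (1 / (n + 1))}
  refine ⟨ℬ, ?_, ?_, ?_⟩
  · refine isTopologicalBasis_of_isOpen_of_nhds ?_ ?_
    · rintro _ ⟨n, s, -, rfl⟩
      exact Metric.isOpen_ball
    · intro x U hx hU
      obtain ⟨r, hr, hrU⟩ := Metric.isOpen_iff.1 hU x hx
      obtain ⟨n, hn⟩ := exists_nat_one_div_lt (half_pos hr)
      obtain ⟨s, hs, hxs⟩ := hS2 n x
      refine ⟨_, ⟨n, s, hs, rfl⟩, hxs, fun y hy => hrU ?_⟩
      rw [Metric.mem_ball] at hy ⊢
      have := dist_triangle_right y x s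
      linarith
  · rintro _ ⟨n, s, -, rfl⟩
    exact ⟨s, Metric.mem_ball_self (hε n)⟩
  · intro B hB hnest
    choose m s hs hBs using hB
    have hstep : ∀ n, B (n + 1) ⊆ B n := fun n =>
      subset_closure.trans ((hnest n).trans interior_subset)
    have hanti : Antitone B := antitone_nat_of_succ_le hstep
    have hmem : ∀ n, s n ∈ B n := fun n => by
      rw [hBs n]
      exact Metric.mem_ball_self (hε _)
    by_cases hlim : Tendsto m atTop atTop
    · -- the radii tend to zero
      have hr : Tendsto (fun n => 2 * (1 / ((m n : ℝ) + 1))) atTop (𝓝 0) := by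
        have h1 := (tendsto_one_div_add_atTop_nhds_zero_nat (𝕜 := ℝ)).comp hlim
        have h2 := h1.const_mul 2
        simpa using h2
      have hcauchy : CauchySeq s := by
        refine cauchySeq_of_le_tendsto_0 (fun n => 2 * (1 / ((m n : ℝ) + 1))) ?_ hr
        intro k l N hk hl
        have h1 : s k ∈ Metric.ball (s N) (1 / ((m N : ℝ) + 1)) := by
          rw [← hBs N]
          exact hanti hk (hmem k)
        have h2 : s l ∈ Metric.ball (s N) (1 / ((m N : ℝ) + 1)) := by
          rw [← hBs N]
          exact hanti hl (hmem l)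
        rw [Metric.mem_ball] at h1 h2
        have := dist_triangle_right (s k) (s l) (s N)
        linarith
      obtain ⟨x, hx⟩ := cauchySeq_tendsto_of_complete hcauchy
      refine ⟨x, mem_iInter.2 fun n => ?_⟩
      refine interior_subset (hnest n (mem_closure_of_tendsto hx ?_))
      filter_upwards [eventually_ge_atTop (n + 1)] with k hk
      exact hanti hk (hmem k)
    · -- some level occurs infinitely often
      have h1 : ∃ N, ∃ᶠ n in atTop, m n = N := by
        by_contra hcon
        push Not at hcon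
        refine hlim (tendsto_atTop.2 fun b => ?_)
        have h2 : ∀ᶠ n in atTop, ∀ N ∈ Finset.range b, m n ≠ N :=
          (Filter.eventually_all_finset _).2 fun N _ => hcon N
        filter_upwards [h2] with n hn
        by_contra hlt
        exact hn (m n) (Finset.mem_range.2 (not_le.1 hlt)) rfl
      obtain ⟨N, hN⟩ := h1
      obtain ⟨n₀, hn₀⟩ := hN.exists
      refine ⟨s n₀, mem_iInter.2 fun n => ?_⟩
      obtain ⟨k, hk, hkN⟩ := (frequently_atTop.1 hN) (max n n₀)
      have h3 : s k ∈ B n₀ := hanti ((le_max_right n n₀).trans hk) (hmem k)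
      rw [hBs n₀, hn₀, Metric.mem_ball] at h3
      have h4 : s k = s n₀ := by
        by_contra hne
        have hsk : s k ∈ S N := hkN ▸ hs k
        have hsn : s n₀ ∈ S N := hn₀ ▸ hs n₀
        exact absurd (hS1 N _ hsk _ hsn hne) (not_le.2 h3)
      rw [← h4]
      exact hanti ((le_max_left n n₀).trans hk) (hmem k)

end Pool.Agent.Results.MP_e752eb_gt.MetrizableCase
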